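import Pool.Agent.H519R3.DP5

/-!
MP_676d90_ag: for every `n, r ≥ 1` the set of Hilbert functions of `r` double points of `ℙ^n` has a
least element, which is the Hilbert function of `r` collinear double points.
-/

set_option autoImplicit false

open Pool.Agent.H519R3

namespace Pool.Agent.Results.MP_676d90_ag.LeastDoublePoints

/-- The set of all Hilbert functions of `R / I_Y^(2)`, where `Y` runs over the sets of exactly `r`
points of the complex projective space of dimension `n`. -/
def hilbertFunctions (n r : ℕ) : Set (ℕ → ℕ) :=
  {H | ∃ Y : Finset (Projectivization ℂ (Fin (n + 1) → ℂ)), Y.card = r ∧ H = hilb Y}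

/-- For all `n, r ≥ 1` the set of Hilbert functions of `r` double points in projective `n`-space has
a least element, namely `d ↦ min (d + 1) (2 * r) + (n - 1) * min d r`. -/
theorem result (n r : ℕ) (hn : 1 ≤ n) (hr : 1 ≤ r) :
    IsLeast (hilbertFunctions n r) (fun d => min (d + 1) (2 * r) + (n - 1) * min d r) := by
  refine ⟨?_, ?_⟩
  · obtain ⟨m, rfl⟩ := Nat.exists_eq_add_of_le' hn
    refine ⟨lineSet r, card_lineSet r, ?_⟩
    funext d
    have h1 := lower_bound hn hr (lineSet (m := m) r) (card_lineSet r) d
    have h2 := hilb_le (m := m) d r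
    have h3 : m + 1 - 1 = m := by omega
    rw [h3] at h1 ⊢
    exact le_antisymm h1 h2
  · rintro H ⟨Y, hY, rfl⟩ d
    exact lower_bound hn hr Y hY d

end Pool.Agent.Results.MP_676d90_ag.LeastDoublePoints
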